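import Pool.Agent.Y589.Sq.Tri

/-!
# Inscribed squares of a definite size in closed sets with a right-angled tip

Let `C` be a closed set in the plane, for instance a plane continuum that separates the plane, or a Jordan curve. There is no regularity condition,
and no condition on `C` away from the neighbourhood of one square.

Let `S = [-1, 1]²`, `P = 1 - i`, `Q = 1 + i` (the two corners on the right) and `M = 2`. Let `E` be the
open isosceles right triangle erected outwards on the right side of `S`, with apex `M`. Let `V₀` be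
the closed triangle with vertices `P, 2 - i, M` and `V₁` the closed triangle with vertices
`M, 2 + i, Q` (`E`, `V₀`, `V₁` together are the rectangle `[1, 2] × [-1, 1]`). Suppose that

* no point of `E` is outside `C`,
* there are a path `α` in `C ∩ V₀` from `P` to `M` and a path `β` in `C ∩ V₁` from `M` to `Q`, such that
  the copy of `α` turned by `-45°` about `Q` and enlarged by `√2` (a path from `-1 - i` to `P` in the
  triangle erected on the lower side of `S`), and the copy of `β` turned by `45°` about `P` and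
  enlarged by `√2` (a path from `Q` to `-1 + i` in the triangle erected on the upper side), contain
  no point inside `C`.

Then `C` contains the four vertices of a square, two of them in `V₀ ∪ V₁`, the side joining them
having a vertical component of at least `1/2`. For example this holds if all the points of the
triangles erected on the lower and on the upper side of `S` are outside `C`.

Method: the barrier argument of `Pool.Agent.H763R2.Sq` (a starting file): signed distances of the
other two vertices of the squares erected on the chords of the path, and a Sperner type lemma.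
-/

set_option autoImplicit false

open Complex Set

namespace Pool.Agent.Results.MP_42173d_gt.RightAngledTip

/-- `z` is outside `C`: it is not in `C`, and its component of the complement of `C` is
unbounded. -/
def Outside (C : Set ℂ) (z : ℂ) : Prop :=
  z ∉ C ∧ ¬ Bornology.IsBounded (connectedComponentIn Cᶜ z)

/-- `z` is inside `C`: it is not in `C`, and its component of the complement of `C` is bounded. -/
def Inside (C : Set ℂ) (z : ℂ) : Prop :=
  z ∉ C ∧ Bornology.IsBounded (connectedComponentIn Cᶜ z)

/-- `x ≤ 2`, `-1 ≤ y`, `2 ≤ x - y`: the closed triangle with the vertices `1 - i`, `2 - i`, `2`. -/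
def V₀ (z : ℂ) : Prop := z.re ≤ 2 ∧ -1 ≤ z.im ∧ 2 ≤ z.re - z.im

/-- `x ≤ 2`, `y ≤ 1`, `2 ≤ x + y`: the closed triangle with the vertices `2`, `2 + i`, `1 + i`. -/
def V₁ (z : ℂ) : Prop := z.re ≤ 2 ∧ z.im ≤ 1 ∧ 2 ≤ z.re + z.im

/-- Let `C` be a closed set and `p + q z` coordinates (`q ≠ 0`; `p = 0`, `q = 1` for the usual ones).
Suppose that no point `p + q z` with `1 < x`, `x + |y| < 2` is outside `C`, that `p + q (1 - i)` can be
joined to `p + 2 q` by a path in `C` consisting of points `p + q z`, `z ∈ V₀`, such that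
`p + q (z + i (1 + i - z))` is not inside `C`, and that `p + 2 q` can be joined to `p + q (1 + i)` by a
path in `C` consisting of points `p + q z`, `z ∈ V₁`, such that `p + q (z + i (z - (1 - i)))` is not
inside `C`. Then `C` contains the vertices `p + q z`, `p + q (z + w)`, `p + q (z + w + i w)`,
`p + q (z + i w)` of a square, with `z` and `z + w` in `V₀ ∪ V₁` and `Im w ≥ 1/2`. -/
theorem result (C : Set ℂ) (hC : IsClosed C) (p q : ℂ) (hq : q ≠ 0)
    (hE : ∀ z : ℂ, 1 < z.re → z.re + |z.im| < 2 → ¬ Outside C (p + q * z))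
    (h₀ : JoinedIn {w | w ∈ C ∧ ∃ z : ℂ, w = p + q * z ∧ V₀ z ∧
        ¬ Inside C (p + q * (z + I * (1 + I - z)))} (p + q * (1 - I)) (p + q * 2))
    (h₁ : JoinedIn {w | w ∈ C ∧ ∃ z : ℂ, w = p + q * z ∧ V₁ z ∧
        ¬ Inside C (p + q * (z + I * (z - (1 - I))))} (p + q * 2) (p + q * (1 + I))) :
    ∃ z w : ℂ, (V₀ z ∨ V₁ z) ∧ (V₀ (z + w) ∨ V₁ (z + w)) ∧ 1 / 2 ≤ w.im ∧
      p + q * z ∈ C ∧ p + q * (z + w) ∈ C ∧ p + q * (z + w + I * w) ∈ C ∧
      p + q * (z + I * w) ∈ C := by
  -- the affine change of coordinates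
  let φ : ℂ ≃ₜ ℂ := (Homeomorph.mulLeft₀ q hq).trans (Homeomorph.addLeft p)
  have hφ : ∀ z, φ z = p + q * z := fun z => rfl
  let ψ : ℂ → ℂ := fun w => (w - p) / q
  have hψc : Continuous ψ := by fun_prop
  have hψ : ∀ z, ψ (p + q * z) = z := by
    intro z
    simp only [ψ]
    rw [add_sub_cancel_left, mul_div_cancel_left₀ _ hq]
  let C' : Set ℂ := φ ⁻¹' C
  have hC' : IsClosed C' := hC.preimage φ.continuous
  have himg : φ '' C'ᶜ = Cᶜ := by
    ext w
    constructor
    · rintro ⟨z, hz, rfl⟩ hw
      exact hz hw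
    · intro hw
      refine ⟨φ.symm w, ?_, φ.apply_symm_apply w⟩
      intro h
      apply hw
      have : φ (φ.symm w) ∈ C := h
      rwa [φ.apply_symm_apply] at this
  have hlip : LipschitzWith ⟨‖q‖, norm_nonneg q⟩ (fun z : ℂ => p + q * z) := by
    refine LipschitzWith.of_dist_le_mul fun x y => ?_
    have : p + q * x - (p + q * y) = q * (x - y) := by ring
    rw [dist_eq_norm, dist_eq_norm, this, norm_mul]
    rfl
  have hlip2 : LipschitzWith ⟨‖q‖⁻¹, inv_nonneg.2 (norm_nonneg q)⟩ ψ := by
    refine LipschitzWith.of_dist_le_mul fun x y => ?_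
    have : ψ x - ψ y = q⁻¹ * (x - y) := by simp only [ψ]; field_simp; ring
    rw [dist_eq_norm, dist_eq_norm, this, norm_mul, norm_inv]
    rfl
  have hbd : ∀ z, z ∉ C' → (Bornology.IsBounded (connectedComponentIn C'ᶜ z) ↔
      Bornology.IsBounded (connectedComponentIn Cᶜ (p + q * z))) := by
    intro z h1
    have h3 := φ.image_connectedComponentIn (s := C'ᶜ) (x := z) h1
    rw [himg, hφ] at h3
    rw [← h3]
    constructor
    · intro hb
      exact hlip.isBounded_image hb
    · intro hb
      refine (hlip2.isBounded_image hb).subset ?_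
      intro x hx
      exact ⟨φ x, ⟨x, hx, rfl⟩, hψ x⟩
  have hmem : ∀ z, z ∈ C' ↔ p + q * z ∈ C := fun z => Iff.rfl
  have hout : ∀ z, z ∈ H763R2.Sq.Outer C' → Outside C (p + q * z) := by
    rintro z ⟨h1, h2⟩
    exact ⟨h1, fun hb => h2 ((hbd z h1).2 hb)⟩
  have hinn : ∀ z, Y589.Sq.Inner C' z → Inside C (p + q * z) := by
    rintro z ⟨h1, h2⟩
    exact ⟨h1, (hbd z h1).1 h2⟩
  have e0 : (⟨1, -1⟩ : ℂ) = 1 - I := by apply Complex.ext <;> simp
  have e1 : (⟨1, 1⟩ : ℂ) = 1 + I := by apply Complex.ext <;> simp
  have e2 : (⟨2, 0⟩ : ℂ) = 2 := by apply Complex.ext <;> simp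
  obtain ⟨z, w, hw, u1, u2, m1, m2, m3, m4⟩ := Y589.Sq.tri2 (C := C') hC'
    (fun z hz h => hE z hz.1 hz.2 (hout z h))
    (by
      have := h₀.map_continuousOn (f := ψ) hψc.continuousOn
      rw [hψ, hψ] at this
      rw [e0, e2]
      refine this.mono ?_
      rintro _ ⟨w, ⟨h1, z, rfl, h2, h3⟩, rfl⟩
      rw [hψ]
      refine ⟨h1, h2, fun h => h3 ?_⟩
      have h4 := hinn _ h
      unfold H763R2.Sq.Dv at h4
      rwa [e1] at h4)
    (by
      have := h₁.map_continuousOn (f := ψ) hψc.continuousOn
      rw [hψ, hψ] at this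
      rw [e1, e2]
      refine this.mono ?_
      rintro _ ⟨w, ⟨h1, z, rfl, h2, h3⟩, rfl⟩
      rw [hψ]
      refine ⟨h1, h2, fun h => h3 ?_⟩
      have h4 := hinn _ h
      unfold H763R2.Sq.Cv at h4
      rwa [e0] at h4)
  exact ⟨z, w, u1, u2, hw, m1, m2, m3, m4⟩

end Pool.Agent.Results.MP_42173d_gt.RightAngledTip
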