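import Pool.Agent.Y535.PEG.Tg6

/-! Plane sets containing a theta curve contain the vertices of a square. -/

set_option autoImplicit false

namespace Pool.Agent.Results.MP_42173d_gt.ThetaCurves

/-- Near the parameter `s` all chords of the curve lie in one open quarter plane: for a suitable `w`
the product of `w` with `c y - c x` has `|Im| < Re` for all `x < y` close to `s`. -/
def Tame (c : ℝ → ℂ) (s : ℝ) : Prop := ∃ ρ > 0, ∃ w : ℂ, ∀ x y : ℝ, |x - s| < ρ → |y - s| < ρ →
  x < y → |(w * (c y - c x)).im| < (w * (c y - c x)).re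

/-- The curve is locally monotone (in the sense of Stromquist) at the parameter `s`: near `s` all
chords of the curve lie in one open half plane. -/
def LocMono (c : ℝ → ℂ) (s : ℝ) : Prop := ∃ ρ > 0, ∃ w : ℂ, ∀ x y : ℝ, |x - s| < ρ → |y - s| < ρ →
  x < y → 0 < (w * (c y - c x)).re

/-- Let `c 0`, `c 1`, `c 2` be three Jordan curves (continuous, of period `1`, injective on `[0, 1)`)
composed of three arcs: the arc `c k ([0, 1/2])` is also the arc `c (k + 1) ([1/2, 1])` (indices
modulo `3`, equality of sets). Suppose that each of the three curves is locally monotone at the two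
junctions and tame at all other parameters at distance less than `ρ` from the junctions. Then every
plane set `K` that contains the three curves contains the four vertices `z + v`, `z + iv`, `z - v`,
`z - iv` of a square, and these four points lie on one of the three curves. -/
theorem result (K : Set ℂ) (c : Fin 3 → ℝ → ℂ) (hK : ∀ k, Set.range (c k) ⊆ K)
    (hc : ∀ k, Continuous (c k)) (hper : ∀ k s, c k (s + 1) = c k s)
    (hinj : ∀ k, Set.InjOn (c k) (Set.Ico 0 1))
    (h3 : ∀ k, c k '' Set.Icc 0 (1 / 2) = c (k + 1) '' Set.Icc (1 / 2) 1)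
    (hm : ∀ k, LocMono (c k) 0 ∧ LocMono (c k) (1 / 2)) (ρ : ℝ) (hρ : 0 < ρ)
    (ht : ∀ k s, (s ≠ 0 ∧ |s| < ρ) ∨ (s ≠ 1 / 2 ∧ |s - 1 / 2| < ρ) → Tame (c k) s) :
    ∃ k, ∃ z v : ℂ, v ≠ 0 ∧ ∀ p ∈ ({z + v, z + Complex.I * v, z - v, z - Complex.I * v} : Set ℂ),
      p ∈ Set.range (c k) ∧ p ∈ K := by
  have main : ∃ k, ¬ Pool.Agent.H763R2.Dm.NoSq (Set.range (c k)) := by
    by_contra hno
    push Not at hno
    have L : ∀ k, Pool.Agent.H763R2.An.Loop (c k) := fun k => ⟨hc k, hper k⟩
    have J : ∀ k, Pool.Agent.H763R2.An.Inj (c k) := by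
      intro k x y hxy hy he
      have e1 : c k (Int.fract x) = c k x := by
        have := (L k).per_int (Int.fract x) ⌊x⌋
        rw [Int.fract_add_floor] at this
        exact this.symm
      have e2 : c k (Int.fract y) = c k y := by
        have := (L k).per_int (Int.fract y) ⌊y⌋
        rw [Int.fract_add_floor] at this
        exact this.symm
      have e3 := hinj k ⟨Int.fract_nonneg x, Int.fract_lt_one x⟩
        ⟨Int.fract_nonneg y, Int.fract_lt_one y⟩ (by rw [e1, e2, he])
      obtain ⟨m, hm⟩ := Int.fract_eq_fract.1 e3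
      have h1 : (m : ℝ) < 0 := by linarith
      have h2 : (-1 : ℝ) < m := by linarith
      have h3 : m < 0 := by exact_mod_cast h1
      have h4 : -1 < m := by exact_mod_cast h2
      omega
    exact Pool.Agent.Y535.PEG.theta_false L J hno h3 (fun k => (hm k).1) (fun k => (hm k).2) hρ
      (fun k s h1 h2 => ht k s (Or.inl ⟨abs_pos.1 h1, h2⟩))
      (fun k s h1 h2 => ht k s (Or.inr ⟨sub_ne_zero.1 (abs_pos.1 h1), h2⟩))
  obtain ⟨k, hk⟩ := main
  obtain ⟨z, w, hw, m1, m2, m3, m4⟩ := not_not.1 hk
  have hI : Complex.I * Complex.I = -1 := Complex.I_mul_I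
  have hv : (1 + Complex.I) * w / 2 ≠ 0 := by
    refine div_ne_zero (mul_ne_zero (fun h => ?_) hw) two_ne_zero
    have := congrArg Complex.re h
    simp at this
  refine ⟨k, z + (1 + Complex.I) * w / 2, (1 + Complex.I) * w / 2, hv, fun p hp => ?_⟩
  have key : p ∈ Set.range (c k) := by
    simp only [Set.mem_insert_iff, Set.mem_singleton_iff] at hp
    rcases hp with rfl | rfl | rfl | rfl
    · rw [show z + (1 + Complex.I) * w / 2 + (1 + Complex.I) * w / 2 = z + w + Complex.I * w by ring]
      exact m3
    · rw [show z + (1 + Complex.I) * w / 2 + Complex.I * ((1 + Complex.I) * w / 2) =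
        z + Complex.I * w by linear_combination w / 2 * hI]
      exact m4
    · rw [show z + (1 + Complex.I) * w / 2 - (1 + Complex.I) * w / 2 = z by ring]
      exact m1
    · rw [show z + (1 + Complex.I) * w / 2 - Complex.I * ((1 + Complex.I) * w / 2) =
        z + w by linear_combination -w / 2 * hI]
      exact m2
  exact ⟨key, hK k key⟩

end Pool.Agent.Results.MP_42173d_gt.ThetaCurves
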